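import Pool.Agent.W207.PF.SpecA

set_option autoImplicit false

open Filter Topology Set MeasureTheory
open scoped BigOperators

namespace Pool.Agent.W816.PF

open W207.PF

theorem int_mul_bdd {κ g : ℝ → ℝ} (hκ : Integrable κ) (hg : Measurable g) (B : ℝ)
    (hB : ∀ a, |g a| ≤ B) : Integrable (fun a => κ a * g a) :=
  Integrable.mul_bdd (c := B) hκ hg.aestronglyMeasurable
    (Eventually.of_forall fun a => by rw [Real.norm_eq_abs]; exact hB a)

theorem ab_thm : S_AB := by
  intro hTN hNU h hh w n C hm hC hae hlow hn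
  obtain ⟨hνm, hνb, hνi⟩ := hNU h hh
  have hC0 : 0 ≤ C := (hC 0 0).1.trans (hC 0 0).2
  set e : (ℝ → ℝ) → ℕ → ℝ := fun κ j => ∫ a, κ a * max (w j a - nuw h a) 0 with he
  set D : (ℝ → ℝ) → ℕ → ℝ := fun κ j => ∫ a, κ a * (w j a - nuw h a) with hD
  have hmax : ∀ j a, 0 ≤ max (w j a - nuw h a) 0 ∧ max (w j a - nuw h a) 0 ≤ C := by
    intro j a
    refine ⟨le_max_right _ _, max_le ?_ hC0⟩
    have := (hC j a).2
    have := (hνb a).1
    linarith
  have hmaxm : ∀ j, Measurable (fun a => max (w j a - nuw h a) 0) := fun j =>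
    ((hm j).sub hνm).max measurable_const
  have hintw : ∀ κ : ℝ → ℝ, Integrable κ → ∀ j, Integrable (fun a => κ a * w j a) := by
    intro κ hκ j
    refine int_mul_bdd hκ (hm j) C fun a => ?_
    rw [abs_of_nonneg (hC j a).1]
    exact (hC j a).2
  have hintν : ∀ κ : ℝ → ℝ, Integrable κ → Integrable (fun a => κ a * nuw h a) := by
    intro κ hκ
    refine int_mul_bdd hκ hνm (h + 1) fun a => ?_
    rw [abs_of_nonneg (hνb a).1]
    exact (hνb a).2
  have hintd : ∀ κ : ℝ → ℝ, Integrable κ → ∀ j,
      Integrable (fun a => κ a * (w j a - nuw h a)) := by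
    intro κ hκ j
    have := (hintw κ hκ j).sub (hintν κ hκ)
    refine this.congr (Eventually.of_forall fun a => ?_)
    simp only [Pi.sub_apply]
    ring
  have hinte : ∀ κ : ℝ → ℝ, Integrable κ → ∀ j,
      Integrable (fun a => κ a * max (w j a - nuw h a) 0) := by
    intro κ hκ j
    refine int_mul_bdd hκ (hmaxm j) C fun a => ?_
    rw [abs_of_nonneg (hmax j a).1]
    exact (hmax j a).2
  have hDsub : ∀ κ : ℝ → ℝ, Integrable κ → ∀ j,
      D κ j = (∫ a, κ a * w j a) - ∫ a, κ a * nuw h a := by
    intro κ hκ j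
    rw [← integral_sub (hintw κ hκ j) (hintν κ hκ)]
    refine integral_congr_ae (Eventually.of_forall fun a => ?_)
    simp only
    ring
  have hDe : ∀ κ : ℝ → ℝ, Integrable κ → (∀ a, 0 ≤ κ a) → ∀ j, D κ j ≤ e κ j := by
    intro κ hκ hκ0 j
    refine integral_mono (hintd κ hκ j) (hinte κ hκ j) fun a => ?_
    exact mul_le_mul_of_nonneg_left (le_max_left _ _) (hκ0 a)
  have hRF : ∀ κ : ℝ → ℝ, Integrable κ → (∀ a, 0 ≤ κ a) → Tendsto (e κ) atTop (𝓝 0) := by
    intro κ hκ hκ0
    have h0 : (∫ _ : ℝ, (0 : ℝ)) = 0 := integral_zero _ _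
    rw [← h0]
    refine tendsto_integral_of_dominated_convergence (fun a => κ a * C) ?_ (hκ.mul_const C) ?_ ?_
    · intro j
      exact (hinte κ hκ j).aestronglyMeasurable
    · intro j
      refine Eventually.of_forall fun a => ?_
      rw [Real.norm_eq_abs, abs_of_nonneg (mul_nonneg (hκ0 a) (hmax j a).1)]
      exact mul_le_mul_of_nonneg_left (hmax j a).2 (hκ0 a)
    · filter_upwards [hae] with a ha
      have h1 : Tendsto (fun j => max (w j a - nuw h a) 0) atTop (𝓝 0) := by
        rw [Metric.tendsto_atTop']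
        intro ε hε
        obtain ⟨N, hN⟩ := eventually_atTop.1 (ha (ε / 2) (by positivity))
        refine ⟨N, fun j hj => ?_⟩
        rw [Real.dist_eq, sub_zero, abs_of_nonneg (hmax j a).1]
        have := hN j hj.le
        refine (max_le ?_ ?_ : max (w j a - nuw h a) 0 ≤ ε / 2).trans_lt (by linarith)
        · linarith
        · positivity
      have h2 := h1.const_mul (κ a)
      rwa [mul_zero] at h2
  have htnI : ∀ lam : ℝ, 0 < lam → Integrable (tn lam) := by
    intro lam hlam
    by_contra hc
    have := (hTN lam hlam).2.2.1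
    rw [integral_undef hc] at this
    linarith
  set C1 : ℝ := C + h * (1 + h / 2) with hC1
  have hC10 : 0 ≤ C1 := by positivity
  have hDlow : ∀ lam : ℝ, 1 ≤ lam → ∀ j, h * lam * (n j - 1) - C1 / lam ≤ D (tn lam) j := by
    intro lam hlam j
    have hl0 : 0 < lam := by linarith
    rw [hDsub _ (htnI lam hl0)]
    have a1 := hlow lam hlam j
    have a2 := hνi lam hl0
    have a3 : C1 / lam = C / lam + h * (1 + h / 2) / lam := by rw [hC1]; ring
    rw [a3]
    nlinarith
  refine ⟨?_, ?_⟩
  · intro ε hε
    -- choose lam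
    obtain ⟨lam, hl1, hl2⟩ : ∃ lam : ℝ, 1 ≤ lam ∧ C1 / lam ≤ h * ε / 2 := by
      refine ⟨max 1 (C1 / (h * ε / 2)), le_max_left _ _, ?_⟩
      have hp : 0 < max 1 (C1 / (h * ε / 2)) := lt_of_lt_of_le one_pos (le_max_left _ _)
      rw [div_le_iff₀ hp]
      have h2 : 0 < h * ε / 2 := by positivity
      have : C1 / (h * ε / 2) ≤ max 1 (C1 / (h * ε / 2)) := le_max_right _ _
      rw [div_le_iff₀ h2] at this
      linarith
    have hl0 : 0 < lam := by linarith
    have hT := hRF (tn lam) (htnI lam hl0) (fun a => ((hTN lam hl0).2.1 a).1)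
    have hev : ∀ᶠ j in atTop, e (tn lam) j < h * ε / 2 :=
      hT.eventually (gt_mem_nhds (by positivity))
    filter_upwards [hev] with j hj
    have b1 := hDlow lam hl1 j
    have b2 := hDe (tn lam) (htnI lam hl0) (fun a => ((hTN lam hl0).2.1 a).1) j
    have b3 : h * lam * (n j - 1) ≤ h * ε := by linarith
    have b4 : lam * (n j - 1) ≤ ε := by
      have : h * (lam * (n j - 1)) ≤ h * ε := by linarith
      exact le_of_mul_le_mul_left this hh
    by_contra hcon
    push Not at hcon
    nlinarith
  · -- nonnegative test functions first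
    have key : ∀ κ : ℝ → ℝ, Continuous κ → HasCompactSupport κ → (∀ a, 0 ≤ κ a) →
        Tendsto (D κ) atTop (𝓝 0) := by
      intro κ hκc hκs hκ0
      have hκI : Integrable κ := hκc.integrable_of_hasCompactSupport hκs
      obtain ⟨M, hM⟩ := hκs.exists_bound_of_continuous hκc
      have hM0 : 0 ≤ M := (norm_nonneg _).trans (hM 0)
      obtain ⟨A, hA⟩ := hκs.isCompact.isBounded.subset_closedBall (0 : ℝ)
      have hsup : ∀ a, A < |a| → κ a = 0 := by
        intro a ha
        by_contra hne
        have h1 : a ∈ tsupport κ := subset_tsupport _ hne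
        have h2 := hA h1
        rw [Metric.mem_closedBall, Real.dist_eq, sub_zero] at h2
        linarith
      rw [Metric.tendsto_atTop']
      intro ε hε
      set lam : ℝ := max (max 1 (2 * A)) (2 * M * C1 / (ε / 4)) with hlam
      have hl1 : 1 ≤ lam := (le_max_left _ _).trans (le_max_left _ _)
      have hl2 : 2 * A ≤ lam := (le_max_right _ _).trans (le_max_left _ _)
      have hl3 : 2 * M * C1 / (ε / 4) ≤ lam := le_max_right _ _
      have hl0 : 0 < lam := by linarith
      have hMl : 2 * M * (C1 / lam) ≤ ε / 4 := by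
        rw [div_le_iff₀ (by positivity)] at hl3
        rw [← mul_div_assoc, div_le_iff₀ hl0]
        linarith
      set κ' : ℝ → ℝ := fun a => 2 * M * tn lam a - κ a with hκ'
      have hκ'I : Integrable κ' := ((htnI lam hl0).const_mul (2 * M)).sub hκI
      have hκ'0 : ∀ a, 0 ≤ κ' a := by
        intro a
        simp only [hκ']
        rcases le_or_gt |a| A with ha | ha
        · have h1 : 1 / 2 ≤ tn lam a := by
            refine le_trans ?_ (le_max_left _ _)
            have : |a| / lam ≤ 1 / 2 := by
              rw [div_le_iff₀ hl0]; linarith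
            linarith
          have h2 : κ a ≤ M := (le_abs_self _).trans (by rw [← Real.norm_eq_abs]; exact hM a)
          nlinarith
        · rw [hsup a ha]
          have := ((hTN lam hl0).2.1 a).1
          have : 0 ≤ 2 * M * tn lam a := by positivity
          linarith
      have hT1 := hRF κ hκI hκ0
      have hT2 := hRF κ' hκ'I hκ'0
      have hev1 : ∀ᶠ j in atTop, e κ j < ε := hT1.eventually (gt_mem_nhds hε)
      have hev2 : ∀ᶠ j in atTop, e κ' j < ε / 4 := hT2.eventually (gt_mem_nhds (by positivity))
      have hpos : 0 < 2 * M * h * lam + 1 := by positivity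
      have hev3 : ∀ᶠ j in atTop, 1 - ε / 4 / (2 * M * h * lam + 1) ≤ n j := hn _ (by positivity)
      obtain ⟨N, hN⟩ := eventually_atTop.1 (hev1.and (hev2.and hev3))
      refine ⟨N, fun j hj => ?_⟩
      obtain ⟨c1, c2, c3⟩ := hN j hj.le
      have d1 := hDe κ hκI hκ0 j
      have d2 := hDe κ' hκ'I hκ'0 j
      have d3 : D κ' j = 2 * M * D (tn lam) j - D κ j := by
        simp only [hD]
        rw [← integral_const_mul, ← integral_sub ((hintd _ (htnI lam hl0) j).const_mul _)
          (hintd κ hκI j)]
        refine integral_congr_ae (Eventually.of_forall fun a => ?_)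
        simp only [hκ']
        ring
      have d4 := hDlow lam hl1 j
      have d5 : -(ε / 4) ≤ 2 * M * (h * lam * (n j - 1)) := by
        have e1 : -(ε / 4 / (2 * M * h * lam + 1)) ≤ n j - 1 := by linarith
        have e2 : 0 ≤ 2 * M * h * lam := by positivity
        have e3 := mul_le_mul_of_nonneg_left e1 e2
        have e4 : 2 * M * h * lam * (ε / 4 / (2 * M * h * lam + 1)) ≤ ε / 4 := by
          have : 2 * M * h * lam * (ε / 4 / (2 * M * h * lam + 1)) =
            (ε / 4) * ((2 * M * h * lam) / (2 * M * h * lam + 1)) := by ring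
          rw [this]
          have e5 : (2 * M * h * lam) / (2 * M * h * lam + 1) ≤ 1 := by
            rw [div_le_one hpos]; linarith
          nlinarith
        nlinarith
      have d6 : 2 * M * (h * lam * (n j - 1) - C1 / lam) ≤ 2 * M * D (tn lam) j :=
        mul_le_mul_of_nonneg_left d4 (by positivity)
      rw [Real.dist_eq, sub_zero, abs_lt]
      constructor
      · nlinarith
      · linarith
    intro κ hκc hκs
    have hκI : Integrable κ := hκc.integrable_of_hasCompactSupport hκs
    set κp : ℝ → ℝ := fun a => max (κ a) 0 with hκp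
    set κm : ℝ → ℝ := fun a => max (-κ a) 0 with hκm
    have hpc : Continuous κp := hκc.max continuous_const
    have hmc : Continuous κm := hκc.neg.max continuous_const
    have hps : HasCompactSupport κp := hκs.comp_left (g := fun y : ℝ => max y 0) (by simp)
    have hms : HasCompactSupport κm := hκs.comp_left (g := fun y : ℝ => max (-y) 0) (by simp)
    have hpI : Integrable κp := hpc.integrable_of_hasCompactSupport hps
    have hmI : Integrable κm := hmc.integrable_of_hasCompactSupport hms
    have hT := (key κp hpc hps (fun a => le_max_right _ _)).sub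
      (key κm hmc hms (fun a => le_max_right _ _))
    rw [sub_zero] at hT
    have hEq : ∀ j, D κp j - D κm j = (∫ a, κ a * w j a) - ∫ a, κ a * nuw h a := by
      intro j
      rw [← hDsub κ hκI j]
      simp only [hD]
      rw [← integral_sub (hintd κp hpI j) (hintd κm hmI j)]
      refine integral_congr_ae (Eventually.of_forall fun a => ?_)
      simp only [hκp, hκm]
      rcases le_total (κ a) 0 with hx | hx
      · rw [max_eq_right hx, max_eq_left (by linarith : (0 : ℝ) ≤ -κ a)]
        ring
      · rw [max_eq_left hx, max_eq_right (by linarith : -κ a ≤ (0 : ℝ))]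
        ring
    have hT2 : Tendsto (fun j => (∫ a, κ a * w j a) - ∫ a, κ a * nuw h a) atTop (𝓝 0) :=
      hT.congr hEq
    have hT3 := hT2.add_const (∫ a, κ a * nuw h a)
    simpa using hT3

end Pool.Agent.W816.PF
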