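import Pool.Agent.W207.PF.SpecA

set_option autoImplicit false

open Filter Topology Set MeasureTheory
open scoped BigOperators

namespace Pool.Agent.W816.PF

open W207.PF
open W207.PR (ct dt G)

theorem apx2_thm : S_APX2 := by
  intro hTN c hc hcs ε hε
  obtain ⟨M0, hM0⟩ := hcs.exists_bound_of_continuous hc
  obtain ⟨A, hA⟩ := hcs.isCompact.isBounded.subset_closedBall (0 : ℝ)
  set M : ℝ := max M0 1 with hMdef
  have hM1 : 1 ≤ M := le_max_right _ _
  have hM : ∀ a, |c a| ≤ M := fun a => by
    rw [← Real.norm_eq_abs]; exact (hM0 a).trans (le_max_left _ _)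
  set U : ℝ := max A 1 with hUdef
  have hU1 : 1 ≤ U := le_max_right _ _
  have hsup : ∀ a, U < |a| → c a = 0 := by
    intro a ha
    by_contra hne
    have h1 : a ∈ tsupport c := subset_tsupport _ hne
    have h2 := hA h1
    rw [Metric.mem_closedBall, Real.dist_eq, sub_zero] at h2
    have h3 : A ≤ U := le_max_left _ _
    linarith
  set B : ℝ := (1 + 2 * U) ^ 2 with hB
  have hB0 : 0 < B := by positivity
  have huc : UniformContinuous c := hcs.uniformContinuous_of_continuous hc
  rw [Metric.uniformContinuous_iff] at huc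
  obtain ⟨δ, hδ, hδc⟩ := huc (ε / (2 * B)) (by positivity)
  set R0 : ℝ := max (32 * M * U / (Real.pi ^ 2 * ε)) (2 * M * (1 + 1 / δ ^ 2) * (2 * B) / (Real.pi * ε))
    with hR0
  have hpi := Real.pi_pos
  have hR0p : 0 < R0 := lt_of_lt_of_le (by positivity) (le_max_left _ _)
  refine ⟨R0, hR0p, ?_⟩
  intro R hR x
  have hRp : 0 < R := by linarith
  obtain ⟨-, -, -, -, -, hKc, -, hKb, hKI, hK1⟩ := hTN R hRp
  set K : ℝ → ℝ := ct (tn R) with hK
  rcases le_or_gt |x| (2 * U) with hx | hx
  · -- near case
    have hsubst : (∫ y, c y * K (x - y)) = ∫ z, c (x - z) * K z := by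
      rw [← integral_sub_left_eq_self (fun y => c y * K (x - y)) volume x]
      refine integral_congr_ae (Eventually.of_forall fun z => ?_)
      simp only [sub_sub_cancel]
    have hI1 : Integrable (fun z => c (x - z) * K z) := by
      refine Integrable.bdd_mul (c := M) hKI ?_ ?_
      · exact (hc.comp (continuous_const.sub continuous_id)).aestronglyMeasurable
      · exact Eventually.of_forall fun z => by rw [Real.norm_eq_abs]; exact hM _
    have hI2 : Integrable (fun z => c x * K z) := hKI.const_mul _
    have hdiff : (∫ y, c y * K (x - y)) - c x = ∫ z, (c (x - z) - c x) * K z := by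
      have h1 : c x = ∫ z, c x * K z := by rw [integral_const_mul, hK1, mul_one]
      conv_lhs => rw [hsubst, h1]
      rw [← integral_sub hI1 hI2]
      refine integral_congr_ae (Eventually.of_forall fun z => ?_)
      simp only
      ring
    have hpt : ∀ z, ‖(c (x - z) - c x) * K z‖ ≤
        ε / (2 * B) * K z + 2 * M / (Real.pi ^ 2 * R) * (1 + 1 / δ ^ 2) * (1 + z ^ 2)⁻¹ := by
      intro z
      have hK0 := (hKb z).1
      have hK3 := (hKb z).2.2
      rw [Real.norm_eq_abs, abs_mul, abs_of_nonneg hK0]
      rcases lt_or_ge |z| δ with hz | hz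
      · have h1 : |c (x - z) - c x| ≤ ε / (2 * B) := by
          have := hδc (a := x - z) (b := x) (by rw [Real.dist_eq]; simpa using hz)
          rw [Real.dist_eq] at this
          exact this.le
        have h2 : 0 ≤ 2 * M / (Real.pi ^ 2 * R) * (1 + 1 / δ ^ 2) * (1 + z ^ 2)⁻¹ := by positivity
        have h3 := mul_le_mul_of_nonneg_right h1 hK0
        linarith
      · have hz0 : 0 < |z| := lt_of_lt_of_le hδ hz
        have hz2 : 0 < z ^ 2 := by rw [← sq_abs]; positivity
        have h1 : |c (x - z) - c x| ≤ 2 * M := by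
          have a1 := hM (x - z)
          have a2 := hM x
          have a3 := abs_sub (c (x - z)) (c x)
          linarith
        have h2 : K z ≤ 1 / (Real.pi ^ 2 * R) * (1 / z ^ 2) := by
          rw [one_div_mul_one_div, le_div_iff₀ (by positivity)]
          exact hK3
        have h3 : 1 / z ^ 2 ≤ (1 + 1 / δ ^ 2) * (1 + z ^ 2)⁻¹ := by
          have hδz : δ ^ 2 ≤ z ^ 2 := by
            rw [← sq_abs z]
            exact pow_le_pow_left₀ hδ.le hz 2
          rw [← div_eq_mul_inv, div_le_div_iff₀ hz2 (by positivity)]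
          have : 1 ≤ 1 / δ ^ 2 * z ^ 2 := by
            rw [one_div, ← div_eq_inv_mul, le_div_iff₀ (by positivity)]
            linarith
          nlinarith
        have h4 : |c (x - z) - c x| * K z ≤ 2 * M * (1 / (Real.pi ^ 2 * R) *
            ((1 + 1 / δ ^ 2) * (1 + z ^ 2)⁻¹)) := by
          refine mul_le_mul h1 (h2.trans ?_) hK0 (by linarith)
          exact mul_le_mul_of_nonneg_left h3 (by positivity)
        have h5 : 0 ≤ ε / (2 * B) * K z := by positivity
        have h6 : 2 * M * (1 / (Real.pi ^ 2 * R) * ((1 + 1 / δ ^ 2) * (1 + z ^ 2)⁻¹)) =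
          2 * M / (Real.pi ^ 2 * R) * (1 + 1 / δ ^ 2) * (1 + z ^ 2)⁻¹ := by ring
        linarith
    have hbI : Integrable (fun z : ℝ => ε / (2 * B) * K z +
        2 * M / (Real.pi ^ 2 * R) * (1 + 1 / δ ^ 2) * (1 + z ^ 2)⁻¹) :=
      (hKI.const_mul _).add (integrable_inv_one_add_sq.const_mul _)
    have hn := norm_integral_le_of_norm_le hbI (Eventually.of_forall hpt)
    rw [integral_add (hKI.const_mul _) (integrable_inv_one_add_sq.const_mul _), integral_const_mul,
      integral_const_mul, hK1, integral_univ_inv_one_add_sq, ← hdiff, Real.norm_eq_abs] at hn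
    have hR2 : 2 * M * (1 + 1 / δ ^ 2) * (2 * B) / (Real.pi * ε) ≤ R := (le_max_right _ _).trans hR
    rw [div_le_iff₀ (by positivity)] at hR2
    have h7 : 2 * M / (Real.pi ^ 2 * R) * (1 + 1 / δ ^ 2) * Real.pi ≤ ε / (2 * B) := by
      have : 2 * M / (Real.pi ^ 2 * R) * (1 + 1 / δ ^ 2) * Real.pi =
        (2 * M * (1 + 1 / δ ^ 2)) / (Real.pi * R) := by
        field_simp
      rw [this, div_le_div_iff₀ (by positivity) (by positivity)]
      linarith
    have h8 : |(∫ y, c y * K (x - y)) - c x| ≤ ε / B := by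
      have : ε / B = ε / (2 * B) * 1 + ε / (2 * B) := by
        field_simp
        norm_num
      linarith
    have h9 : (1 + |x|) ^ 2 ≤ B := by
      rw [hB]
      have := abs_nonneg x
      exact pow_le_pow_left₀ (by positivity) (by linarith) 2
    calc |(∫ y, c y * K (x - y)) - c x| * (1 + |x|) ^ 2 ≤ ε / B * B :=
          mul_le_mul h8 h9 (by positivity) (by positivity)
      _ = ε := by field_simp
  · -- far case
    have hx0 : c x = 0 := hsup x (by linarith)
    have hx1 : 1 ≤ |x| := by linarith
    have hxp : 0 < |x| := by linarith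
    rw [hx0, sub_zero]
    have hset : (∫ y, c y * K (x - y)) = ∫ y in Icc (-U) U, c y * K (x - y) := by
      rw [setIntegral_eq_integral_of_forall_compl_eq_zero]
      intro y hy
      have : U < |y| := by
        by_contra hcon
        push Not at hcon
        exact hy (abs_le.1 hcon)
      rw [hsup y this, zero_mul]
    rw [hset]
    have hb : ∀ y ∈ Icc (-U) U, ‖c y * K (x - y)‖ ≤ M * (4 / (Real.pi ^ 2 * R * |x| ^ 2)) := by
      intro y hy
      have hy' : |y| ≤ U := abs_le.2 hy
      have hK0 := (hKb (x - y)).1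
      have hK3 := (hKb (x - y)).2.2
      rw [Real.norm_eq_abs, abs_mul, abs_of_nonneg hK0]
      refine mul_le_mul (hM y) ?_ hK0 (by linarith)
      have h1 : |x| / 2 ≤ |x - y| := by
        have := abs_sub_abs_le_abs_sub x y
        linarith
      have h2 : (|x| / 2) ^ 2 ≤ (x - y) ^ 2 := by
        rw [← sq_abs (x - y)]
        exact pow_le_pow_left₀ (by positivity) h1 2
      rw [le_div_iff₀ (by positivity)]
      have h3 : K (x - y) * (Real.pi ^ 2 * R * |x| ^ 2) ≤ K (x - y) * (Real.pi ^ 2 * R * (4 * (x - y) ^ 2)) := by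
        refine mul_le_mul_of_nonneg_left ?_ hK0
        refine mul_le_mul_of_nonneg_left ?_ (by positivity)
        nlinarith
      nlinarith
    have hn := norm_setIntegral_le_of_norm_le_const (μ := volume) (s := Icc (-U) U)
      (by rw [Real.volume_Icc]; exact ENNReal.ofReal_lt_top) hb
    rw [Real.norm_eq_abs] at hn
    have hv : volume.real (Icc (-U) U) = 2 * U := by
      rw [Measure.real, Real.volume_Icc, ENNReal.toReal_ofReal (by linarith)]
      ring
    rw [hv] at hn
    have hR1 : 32 * M * U / (Real.pi ^ 2 * ε) ≤ R := (le_max_left _ _).trans hR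
    rw [div_le_iff₀ (by positivity)] at hR1
    have h9 : (1 + |x|) ^ 2 ≤ 4 * |x| ^ 2 := by nlinarith
    calc |∫ y in Icc (-U) U, c y * K (x - y)| * (1 + |x|) ^ 2
        ≤ (M * (4 / (Real.pi ^ 2 * R * |x| ^ 2)) * (2 * U)) * (4 * |x| ^ 2) :=
          mul_le_mul hn h9 (by positivity) (by positivity)
      _ = 32 * M * U / (Real.pi ^ 2 * R) := by
          field_simp
          norm_num
      _ ≤ ε := by
          rw [div_le_iff₀ (by positivity)]
          nlinarith

end Pool.Agent.W816.PF
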