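import Pool.Agent.W207.PF.SpecA

set_option autoImplicit false

open Filter Topology Set MeasureTheory
open scoped BigOperators

namespace Pool.Agent.W816.PF

open W207.PF
open W207.PR (ct dt G)

/-- the density `1 - (sin πx / πx)²` -/
noncomputable def fd (x : ℝ) : ℝ := 1 - (Real.sin (Real.pi * x) / (Real.pi * x)) ^ 2

theorem fd_bd (x : ℝ) : 0 ≤ fd x ∧ fd x ≤ 1 := by
  unfold fd
  have h1 : |Real.sin (Real.pi * x) / (Real.pi * x)| ≤ 1 := by
    rw [abs_div]
    rcases eq_or_ne x 0 with hx | hx
    · simp [hx]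
    · have hp : 0 < |Real.pi * x| := abs_pos.2 (mul_ne_zero Real.pi_ne_zero hx)
      rw [div_le_one hp]
      exact Real.abs_sin_le_abs
  have h2 : (Real.sin (Real.pi * x) / (Real.pi * x)) ^ 2 ≤ 1 := by
    rw [← sq_abs]
    exact pow_le_one₀ (abs_nonneg _) h1
  constructor
  · linarith
  · have := sq_nonneg (Real.sin (Real.pi * x) / (Real.pi * x))
    linarith

theorem fd_meas : Measurable fd := by
  unfold fd
  fun_prop

theorem fd_even (x : ℝ) : fd (-x) = fd x := by
  unfold fd
  rw [mul_neg, Real.sin_neg, neg_div_neg_eq]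

theorem fd_int (a b : ℝ) : IntervalIntegrable fd volume a b := by
  rw [intervalIntegrable_iff]
  refine Measure.integrableOn_of_bounded (M := 1) ?_ fd_meas.aestronglyMeasurable ?_
  · rw [Set.uIoc, Real.volume_Ioc]; exact ENNReal.ofReal_ne_top
  · exact Eventually.of_forall fun x => by
      rw [Real.norm_eq_abs, abs_of_nonneg (fd_bd x).1]; exact (fd_bd x).2

theorem fd_sym (u : ℝ) : ∫ x in (-u)..u, fd x = 2 * G u := by
  have h1 : ∫ x in (-u)..0, fd x = ∫ x in (0 : ℝ)..u, fd x := by
    have := intervalIntegral.integral_comp_neg (a := 0) (b := u) fd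
    rw [neg_zero] at this
    rw [← this]
    exact intervalIntegral.integral_congr fun x _ => fd_even x
  rw [← intervalIntegral.integral_add_adjacent_intervals (fd_int (-u) 0) (fd_int 0 u), h1]
  have : G u = ∫ x in (0 : ℝ)..u, fd x := rfl
  rw [this]
  ring

theorem min_thm : S_MIN := by
  intro hSN h u ε hh hu hε
  obtain ⟨hs0, hsx, hsc, hse, -, -, -, -⟩ := hSN h hh
  set χ : ℝ → ℝ → ℝ := fun η x => max 0 (min 1 ((u - |x|) / η)) with hχ
  set b : ℝ → ℝ → ℝ := fun η x => χ η x / max (sn h x ^ 2) η with hb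
  have hχ01 : ∀ η x, 0 ≤ χ η x ∧ χ η x ≤ 1 := fun η x =>
    ⟨le_max_left _ _, max_le zero_le_one (min_le_left _ _)⟩
  have hmaxp : ∀ η, 0 < η → ∀ x, 0 < max (sn h x ^ 2) η := fun η hη x =>
    lt_of_lt_of_le hη (le_max_right _ _)
  have hχ0 : ∀ η, 0 < η → ∀ x, u ≤ |x| → χ η x = 0 := by
    intro η hη x hx
    simp only [hχ]
    refine max_eq_left ((min_le_right _ _).trans ?_)
    exact div_nonpos_of_nonpos_of_nonneg (by linarith) hη.le
  have hbc : ∀ η, 0 < η → Continuous (b η) := by
    intro η hη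
    have h1 : Continuous (χ η) := by
      simp only [hχ]
      exact continuous_const.max (continuous_const.min
        ((continuous_const.sub continuous_abs).div_const _))
    exact h1.div ((hsc.pow 2).max continuous_const) fun x => (hmaxp η hη x).ne'
  have hb0 : ∀ η, 0 < η → ∀ x, 0 ≤ b η x := fun η hη x =>
    div_nonneg (hχ01 η x).1 (hmaxp η hη x).le
  have hφ : ∀ η, 0 < η → ∀ x, 0 ≤ sn h x ^ 2 * b η x ∧ sn h x ^ 2 * b η x ≤ 1 := by
    intro η hη x
    refine ⟨mul_nonneg (sq_nonneg _) (hb0 η hη x), ?_⟩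
    simp only [hb]
    rw [← mul_div_assoc, div_le_one (hmaxp η hη x)]
    have h1 := (hχ01 η x).2
    have h2 : sn h x ^ 2 ≤ max (sn h x ^ 2) η := le_max_left _ _
    nlinarith [sq_nonneg (sn h x)]
  -- the limit
  have hlim : Tendsto (fun n : ℕ => ∫ x, (sn h x ^ 2 * b (1 / ((n : ℝ) + 1)) x) * fd x) atTop
      (𝓝 (∫ x, (Icc (-u) u).indicator fd x)) := by
    have hη : ∀ n : ℕ, (0 : ℝ) < 1 / ((n : ℝ) + 1) := fun n => by positivity
    refine tendsto_integral_of_dominated_convergence ((Icc (-u) u).indicator fun _ => (1 : ℝ))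
      ?_ ?_ ?_ ?_
    · intro n
      exact (((hsc.pow 2).mul (hbc _ (hη n))).aestronglyMeasurable).mul
        fd_meas.aestronglyMeasurable
    · rw [integrable_indicator_iff measurableSet_Icc]
      exact integrableOn_const (by rw [Real.volume_Icc]; exact ENNReal.ofReal_ne_top)
    · intro n
      refine Eventually.of_forall fun x => ?_
      obtain ⟨p1, p2⟩ := hφ _ (hη n) x
      obtain ⟨q1, q2⟩ := fd_bd x
      rw [Real.norm_eq_abs, abs_of_nonneg (mul_nonneg p1 q1)]
      by_cases hx : x ∈ Icc (-u) u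
      · rw [indicator_of_mem hx]
        exact mul_le_one₀ p2 q1 q2
      · rw [indicator_of_notMem hx]
        have : u ≤ |x| := by
          by_contra hcon
          push Not at hcon
          exact hx (abs_le.1 hcon.le)
        simp only [hb]
        rw [hχ0 _ (hη n) x this]
        simp
    · -- almost everywhere convergence
      have hN : (volume : Measure ℝ) (({u, -u, 0} : Set ℝ) ∪ range (fun k : ℤ => (k : ℝ) / h)) = 0 := by
        refine Set.Countable.measure_zero ?_ _
        exact (Set.Finite.countable (Set.toFinite _)).union (Set.countable_range _)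
      rw [← compl_compl (({u, -u, 0} : Set ℝ) ∪ range (fun k : ℤ => (k : ℝ) / h))] at hN
      have hae : ∀ᵐ x : ℝ, x ∈ (({u, -u, 0} : Set ℝ) ∪ range (fun k : ℤ => (k : ℝ) / h))ᶜ := hN
      filter_upwards [hae] with x hx
      have hx1 : x ≠ u := fun e => hx (Or.inl (by simp [e]))
      have hx2 : x ≠ -u := fun e => hx (Or.inl (by simp [e]))
      have hx3 : x ≠ 0 := fun e => hx (Or.inl (by simp [e]))
      have hx4 : sn h x ≠ 0 := by
        rw [hsx x hx3]
        refine div_ne_zero ?_ (mul_ne_zero Real.pi_ne_zero hx3)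
        intro hcon
        obtain ⟨k, hk⟩ := Real.sin_eq_zero_iff.1 hcon
        apply hx
        refine Or.inr ⟨k, ?_⟩
        have hpi := Real.pi_ne_zero
        simp only
        rw [div_eq_iff hh.ne']
        have : Real.pi * (k : ℝ) = Real.pi * (x * h) := by linarith
        exact mul_left_cancel₀ hpi this
      by_cases hxm : x ∈ Icc (-u) u
      · rw [indicator_of_mem hxm]
        have hxu : |x| < u := by
          rw [abs_lt]
          exact ⟨lt_of_le_of_ne hxm.1 (Ne.symm hx2), lt_of_le_of_ne hxm.2 hx1⟩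
        have hpos : 0 < min (u - |x|) (sn h x ^ 2) := lt_min (by linarith) (by positivity)
        obtain ⟨n0, hn0⟩ := exists_nat_one_div_lt hpos
        refine tendsto_const_nhds.congr' ?_
        filter_upwards [eventually_ge_atTop n0] with n hn
        have hηn : 1 / ((n : ℝ) + 1) ≤ 1 / ((n0 : ℝ) + 1) := by
          apply one_div_le_one_div_of_le (by positivity)
          have : (n0 : ℝ) ≤ n := by exact_mod_cast hn
          linarith
        have hη1 : 1 / ((n : ℝ) + 1) ≤ u - |x| :=
          hηn.trans (hn0.le.trans (min_le_left _ _))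
        have hη2 : 1 / ((n : ℝ) + 1) ≤ sn h x ^ 2 :=
          hηn.trans (hn0.le.trans (min_le_right _ _))
        simp only [hb, hχ]
        rw [max_eq_left hη2, min_eq_left, max_eq_right zero_le_one]
        · field_simp
        · rw [le_div_iff₀ (hη n), one_mul]
          exact hη1
      · rw [indicator_of_notMem hxm]
        have hxu : u ≤ |x| := by
          by_contra hcon
          push Not at hcon
          exact hxm (abs_le.1 hcon.le)
        refine tendsto_const_nhds.congr' ?_
        refine Eventually.of_forall fun n => ?_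
        simp only [hb]
        rw [hχ0 _ (hη n) x hxu]
        simp
  have hval : (∫ x, (Icc (-u) u).indicator fd x) = 2 * G u := by
    rw [integral_indicator measurableSet_Icc, integral_Icc_eq_integral_Ioc,
      ← intervalIntegral.integral_of_le (by linarith), fd_sym]
  rw [hval] at hlim
  have hpos : 0 < min u (h ^ 2) := lt_min hu (by positivity)
  obtain ⟨n0, hn0⟩ := exists_nat_one_div_lt hpos
  have hev1 : ∀ᶠ n : ℕ in atTop,
      2 * G u - ε < ∫ x, (sn h x ^ 2 * b (1 / ((n : ℝ) + 1)) x) * fd x :=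
    hlim.eventually (lt_mem_nhds (by linarith))
  obtain ⟨n, hn1, hn2⟩ := (hev1.and (eventually_ge_atTop n0)).exists
  have hη : (0 : ℝ) < 1 / ((n : ℝ) + 1) := by positivity
  have hηn : 1 / ((n : ℝ) + 1) ≤ 1 / ((n0 : ℝ) + 1) := by
    apply one_div_le_one_div_of_le (by positivity)
    have : (n0 : ℝ) ≤ n := by exact_mod_cast hn2
    linarith
  have hη1 : 1 / ((n : ℝ) + 1) ≤ u := hηn.trans (hn0.le.trans (min_le_left _ _))
  have hη2 : 1 / ((n : ℝ) + 1) ≤ h ^ 2 := hηn.trans (hn0.le.trans (min_le_right _ _))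
  refine ⟨b (1 / ((n : ℝ) + 1)), hbc _ hη, ?_, ?_, hb0 _ hη, fun x _ => (hφ _ hη x).2, ?_, ?_⟩
  · intro y
    simp only [hb, hχ]
    rw [abs_neg, hse]
  · refine HasCompactSupport.intro (isCompact_Icc (a := -u) (b := u)) fun x hx => ?_
    have hxu : u ≤ |x| := by
      by_contra hcon
      push Not at hcon
      exact hx (abs_le.1 hcon.le)
    simp only [hb]
    rw [hχ0 _ hη x hxu, zero_div]
  · intro x hx
    simp only [hb]
    rw [hχ0 _ hη x hx.le, zero_div]
  · have h0 : sn h 0 ^ 2 * b (1 / ((n : ℝ) + 1)) 0 = 1 := by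
      simp only [hb, hχ]
      rw [hs0, abs_zero, sub_zero, max_eq_left hη2, min_eq_left, max_eq_right zero_le_one]
      · field_simp
      · rw [le_div_iff₀ hη, one_mul]
        exact hη1
    unfold MZ
    simp only
    rw [h0]
    have h1 : (∫ x, (sn h x ^ 2 * b (1 / ((n : ℝ) + 1)) x) *
        (1 - (Real.sin (Real.pi * x) / (Real.pi * x)) ^ 2)) =
        ∫ x, (sn h x ^ 2 * b (1 / ((n : ℝ) + 1)) x) * fd x := rfl
    rw [h1]
    linarith

end Pool.Agent.W816.PF
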